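import Pool.Agent.H73.SMD.Stmts

/-!
# Board `smd`, row LI1: limits of iterates
-/

set_option autoImplicit false

open Set Filter Topology MeasureTheory Metric

namespace Pool.SMD

open Pool.PHS Pool.LPC

/-- a subsequence with strictly increasing differences -/
theorem li1_sub (a : ℕ → ℕ) (ha : StrictMono a) : ∃ φ : ℕ → ℕ, StrictMono φ ∧
    StrictMono (fun i => a (φ (i + 1)) - a (φ i)) ∧ ∀ i, a (φ i) + 1 ≤ a (φ (i + 1)) := by
  let φ : ℕ → ℕ := fun i => Nat.rec 0 (fun _ p => 2 * a p + 1) i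
  have h0 : ∀ i, φ (i + 1) = 2 * a (φ i) + 1 := fun i => rfl
  have h1 : ∀ i, φ (i + 1) ≤ a (φ (i + 1)) := fun i => ha.id_le _
  have h2 : ∀ i, φ i ≤ a (φ i) := fun i => ha.id_le _
  refine ⟨φ, strictMono_nat_of_lt_succ fun i => ?_, strictMono_nat_of_lt_succ fun i => ?_,
    fun i => ?_⟩
  · have h3 := h0 i
    have h4 := h2 i
    omega
  · have h3 := h0 i
    have h4 := h0 (i + 1)
    have h5 := h1 i
    have h6 := h1 (i + 1)
    show a (φ (i + 1)) - a (φ i) < a (φ (i + 1 + 1)) - a (φ (i + 1))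
    omega
  · have h3 := h0 i
    have h5 := h1 i
    omega

theorem LI1_thm (_h1 : LIMStmt) (h2 : IT1Stmt) (h3 : SEQStmt) : LI1Stmt := by
  intro n D f k z w hD _ hDb hf hk hz _ hlim
  have hit : ∀ m, DifferentiableOn ℂ f^[m] D := fun m => hf.hol.iterate hf.maps m
  have hmp : ∀ m, MapsTo f^[m] D D := fun m => hf.maps.iterate m
  have hmc : ∀ m, MapsTo f^[m] D (closure D) := fun m y hy => subset_closure (hmp m hy)
  let l : Ultrafilter ℕ := Filter.hyperfilter ℕ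
  have hl : (l : Filter ℕ) ≤ atTop := by
    rw [← Nat.cofinite_eq_atTop]
    exact Filter.hyperfilter_le_cofinite
  have hln : (l : Filter ℕ).NeBot := inferInstance
  obtain ⟨g, hg1, hg2, hg3⟩ := h2 n D l (fun j => f^[k j]) hD hDb (fun j => hit _) (fun j => hmc _)
  have hg4 : ∀ y ∈ D, Tendsto (fun j => f^[k j] y) l (𝓝 (g y)) := fun y hy => hg3.tendsto_at hy
  obtain ⟨j1, hj1, hj1'⟩ := h3 n D f g k l hln hl hD hDb hf hg4
  have hgz : g z = w := tendsto_nhds_unique (hj1' z hz) (hlim.comp hj1.tendsto_atTop)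
  obtain ⟨φ, hφ, hd, hφ1⟩ := li1_sub (fun i => k (j1 i)) (hk.comp hj1)
  have hk' : ∀ y ∈ D, Tendsto (fun i => f^[k (j1 (φ i))] y) atTop (𝓝 (g y)) := fun y hy =>
    (hj1' y hy).comp hφ.tendsto_atTop
  obtain ⟨h, hh1, hh2, hh3⟩ := h2 n D l (fun i => f^[k (j1 (φ (i + 1))) - k (j1 (φ i))]) hD hDb
    (fun j => hit _) (fun j => hmc _)
  have hh4 : ∀ y ∈ D, Tendsto (fun i => f^[k (j1 (φ (i + 1))) - k (j1 (φ i))] y) l (𝓝 (h y)) :=
    fun y hy => hh3.tendsto_at hy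
  obtain ⟨j2, hj2, hj2'⟩ := h3 n D f h (fun i => k (j1 (φ (i + 1))) - k (j1 (φ i))) l hln hl hD hDb
    hf hh4
  refine ⟨g, h, fun i => k (j1 (φ i)), fun i => k (j1 (φ (j2 i + 1))) - k (j1 (φ (j2 i))),
    (hk.comp hj1).comp hφ, hd.comp hj2, fun i => ?_, hk', hj2', hgz, hg1, hh1, hg2, hh2, ?_⟩
  · have h5 := hφ1 (j2 i)
    show 1 ≤ k (j1 (φ (j2 i + 1))) - k (j1 (φ (j2 i)))
    omega
  · intro y hy hgy
    have h6 : Tendsto (fun i => f^[k (j1 (φ i))] y) l (𝓝[D] (g y)) :=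
      tendsto_nhdsWithin_iff.2 ⟨(hk' y hy).mono_left hl, Eventually.of_forall fun i => hmp _ hy⟩
    have h7 := hh3.tendsto_comp (hh1.continuousOn (g y) hgy) hgy h6
    have h8 : Tendsto (fun i => f^[k (j1 (φ (i + 1)))] y) l (𝓝 (g y)) :=
      ((hk' y hy).comp (tendsto_add_atTop_nat 1)).mono_left hl
    refine tendsto_nhds_unique h7 (h8.congr fun i => ?_)
    rw [← Function.iterate_add_apply]
    congr 1
    have h5 := hφ1 i
    omega

end Pool.SMD
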